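import Pool.Agent.MT100D.Stmts
import Pool.Agent.Helper65_MT100.Vag
import Pool.Agent.Helper43_MT100G.Bas
import Pool.Agent.Helper20_MTD.Trg
import Pool.Agent.Helper27_MT.ExpN

/-!
# MT100-D, module VAGD: the values of the translates
-/

set_option autoImplicit false

namespace Pool.Agent.MT100D.H64

open Matrix Filter Topology Pool.Agent.MT100 Pool.Agent.MT100G Pool.Agent.MT100A

variable {d : Type} [Fintype d] [DecidableEq d]

/-! ### `N` commutes with `δ` -/

lemma pow_comV {N : Matrix d d ℤ} {δ : d → ℚ} (h : ∀ i j, N i j ≠ 0 → δ i = δ j) (t : ℕ) :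
    ∀ i j, (N ^ t) i j ≠ 0 → δ i = δ j := by
  induction t with
  | zero =>
    intro i j hij
    rw [pow_zero, Matrix.one_apply] at hij
    by_cases h0 : i = j
    · rw [h0]
    · rw [if_neg h0] at hij
      exact absurd rfl hij
  | succ t ih =>
    intro i j hij
    rw [pow_succ, Matrix.mul_apply] at hij
    obtain ⟨k, -, hk⟩ := Finset.exists_ne_zero_of_sum_ne_zero hij
    exact (ih i k (left_ne_zero_of_mul hk)).trans (h k j (right_ne_zero_of_mul hk))

lemma eN_comV {N : Matrix d d ℤ} {δ : d → ℚ} (h : ∀ i j, N i j ≠ 0 → δ i = δ j) (x : ℂ)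
    (i j : d) (hij : eN N x i j ≠ 0) : δ i = δ j := by
  rw [MT100G.H43.eN_entry] at hij
  obtain ⟨t, -, ht⟩ := Finset.exists_ne_zero_of_sum_ne_zero hij
  refine pow_comV h t i j fun h0 => ?_
  rw [h0] at ht
  exact ht (by simp)

lemma ed_eN {N : Matrix d d ℤ} {δ : d → ℚ} (h : ∀ i j, N i j ≠ 0 → δ i = δ j) (l x : ℂ) :
    ed δ l * eN N x = eN N x * ed δ l := by
  unfold ed
  ext i j
  rw [Matrix.diagonal_mul, Matrix.mul_diagonal]
  by_cases h0 : eN N x i j = 0
  · rw [h0, mul_zero, zero_mul]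
  · rw [eN_comV h x i j h0, mul_comm]

lemma ed_addV (δ : d → ℚ) (l l' : ℂ) : ed δ l * ed δ l' = ed δ (l + l') := by
  unfold ed
  rw [Matrix.diagonal_mul_diagonal]
  congr 1
  funext i
  rw [← Complex.exp_add, ← mul_add]

/-- the values of a series of G-type near zero -/
lemma gtype_atTop {f : PowerSeries ℚ} (hf : GType f) :
    ∀ᶠ w : ℝ in atTop, Helper65MT100.Ab f w⁻¹ := by
  obtain ⟨δ, hδ, h⟩ := MT100.H47.eva1 f hf
  filter_upwards [eventually_gt_atTop δ⁻¹, eventually_gt_atTop 0] with w h1 h2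
  refine h w⁻¹ ?_
  rw [abs_of_pos (inv_pos.2 h2), inv_lt_comm₀ h2 hδ]
  exact h1

/-- VAGD -/
theorem vagD : VagDStmt := by
  intro d _ _ F κ
  have hE : Helper65MT100.E3 := fun f g x hf hg => MT100.H47.eva3 f g x hf hg
  have hv := Helper65MT100.vag d F.H F.N F.sys.nil F.sys.gH Polynomial.X (by simp) (by simp) κ
  have hG : ∀ i j, GType (F.T κ i j) := by
    obtain ⟨K', N', δ', q', B', h⟩ := H20.trgD d F.H F.K F.N F.δ F.q F.B F.sys κ
    exact h.gH
  have hA : ∀ᶠ w : ℝ in atTop, ∀ i j, Helper65MT100.Ab (F.T κ i j) w⁻¹ := by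
    rw [eventually_all]
    intro i
    rw [eventually_all]
    exact fun j => gtype_atTop (hG i j)
  have hb : ∀ᶠ w : ℝ in atTop, ∀ j, Helper65MT100.Ab (MT100.H34.bn κ (F.δ j)) w⁻¹ := by
    rw [eventually_all]
    exact fun j => gtype_atTop (MT100.H34.gtype_bn κ _)
  filter_upwards [hv, hA, hb, eventually_gt_atTop ((κ : ℝ) + 1)] with w h1 h2 h3 h4
  have hκ : (0 : ℝ) ≤ κ := Nat.cast_nonneg κ
  have hw0 : 0 < w := by linarith
  have hwk : 0 < w - κ := by linarith
  have hpv : ∀ y : ℝ, pv Polynomial.X y = y := by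
    intro y
    unfold pv
    rw [Polynomial.map_X, Polynomial.eval_X]
  rw [hpv, Polynomial.natDegree_X, Polynomial.leadingCoeff_X] at h1
  have hx : (-(((1 : ℕ) : ℝ) * Real.log w + Real.log ((1 : ℚ) : ℝ))) = -Real.log w := by simp
  rw [hx] at h1
  obtain ⟨V, hV⟩ : ∃ V : Matrix d d ℂ, V = ((TrG F.H F.N Polynomial.X κ).map
    (fun f => ev f w⁻¹)).map (algebraMap ℝ ℂ) := ⟨_, rfl⟩
  have hlog : Complex.log (w : ℂ) = ((Real.log w : ℝ) : ℂ) := (Complex.ofReal_log hw0.le).symm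
  have hsub : ((w : ℂ) - κ) = (((w - κ : ℝ)) : ℂ) := by push_cast; rfl
  have hlog' : Complex.log ((w : ℂ) - κ) = ((Real.log (w - κ) : ℝ) : ℂ) := by
    rw [hsub]
    exact (Complex.ofReal_log hwk.le).symm
  -- the first factor
  have hY : YH F.H F.N ((w : ℂ) - κ) = V * eN F.N (-Complex.log w) := by
    unfold YH
    rw [hlog', hlog, ← Complex.ofReal_neg, ← Complex.ofReal_neg, MT100G.H43.eN_real,
      MT100G.H43.eN_real, hV, ← Matrix.map_mul, ← h1, Matrix.map_mul]
    congr 1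
    ext i j
    simp only [Matrix.map_apply]
    rw [hsub, ← Complex.ofReal_inv, MT100G.H43.evC_real]
    rfl
  have hN : eN F.N (-Complex.log w) * eN F.N (Complex.log w) = 1 := by
    have h := MT100.H27.eN_mul_neg F.sys.nil (-Complex.log (w : ℂ))
    rwa [neg_neg] at h
  have hcom := F.sys.com
  have hL : F.Y ((w : ℂ) - κ) * F.R w =
      V * ed F.δ (-Complex.log ((w : ℂ) - κ) + Complex.log w) := by
    unfold Family.Y Family.R YD
    rw [hY]
    calc V * eN F.N (-Complex.log w) * ed F.δ (-Complex.log ((w : ℂ) - κ)) *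
          (ed F.δ (Complex.log w) * eN F.N (Complex.log w)) =
          V * eN F.N (-Complex.log w) * ((ed F.δ (-Complex.log ((w : ℂ) - κ)) *
          ed F.δ (Complex.log w)) * eN F.N (Complex.log w)) := by simp only [Matrix.mul_assoc]
      _ = V * (eN F.N (-Complex.log w) * eN F.N (Complex.log w)) *
          ed F.δ (-Complex.log ((w : ℂ) - κ) + Complex.log w) := by
        rw [ed_addV, ed_eN hcom]
        simp only [Matrix.mul_assoc]
      _ = _ := by rw [hN, Matrix.mul_one]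
  rw [hL]
  ext i j
  unfold ed
  rw [Matrix.mul_diagonal, hV, Matrix.map_apply, Matrix.map_apply]
  show ((ev (TrG F.H F.N Polynomial.X κ i j) w⁻¹ : ℝ) : ℂ) * _ =
    ((ev (F.T κ i j) w⁻¹ : ℝ) : ℂ)
  have hT : TrG F.H F.N Polynomial.X κ i j = F.T κ i j * MT100.H34.bn κ (F.δ j) := by
    show _ = (TrG F.H F.N Polynomial.X κ *
      diagonal fun i => MT100.H34.bn κ (-F.δ i)) i j * MT100.H34.bn κ (F.δ j)
    rw [Matrix.mul_diagonal, mul_assoc, mul_comm (MT100.H34.bn κ (-F.δ j)),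
      MT100.H34.bn_mul_neg, mul_one]
  rw [hT, (hE _ _ w⁻¹ (h2 i j) (h3 j)).2.2.2]
  have hbn : ((ev (MT100.H34.bn κ (F.δ j)) w⁻¹ : ℝ) : ℂ) =
      Complex.exp ((F.δ j : ℂ) * (Complex.log ((w : ℂ) - κ) - Complex.log w)) := by
    have h5 : ‖(κ : ℂ) * ((w⁻¹ : ℝ) : ℂ)‖ < 1 := by
      rw [norm_mul, Complex.norm_natCast, Complex.norm_real, Real.norm_eq_abs,
        abs_of_pos (inv_pos.2 hw0), ← div_eq_mul_inv, div_lt_one hw0]
      linarith
    rw [← MT100G.H43.evC_real, MT100.H34.evC_bn κ (F.δ j) h5]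
    have h6 : (1 : ℂ) - κ * ((w⁻¹ : ℝ) : ℂ) = (((w - κ) / w : ℝ) : ℂ) := by
      push_cast
      have : (w : ℂ) ≠ 0 := by exact_mod_cast hw0.ne'
      field_simp
    have h7 : (0 : ℝ) < (w - κ) / w := div_pos hwk hw0
    rw [h6, Complex.cpow_def_of_ne_zero (by exact_mod_cast h7.ne'), ← Complex.ofReal_log h7.le,
      Real.log_div hwk.ne' hw0.ne', hlog, hlog']
    congr 1
    push_cast
    ring
  rw [Complex.ofReal_mul, hbn, mul_assoc, ← Complex.exp_add]
  have h8 : (F.δ j : ℂ) * (Complex.log ((w : ℂ) - κ) - Complex.log w) +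
      (F.δ j : ℂ) * (-Complex.log ((w : ℂ) - κ) + Complex.log w) = 0 := by ring
  rw [h8, Complex.exp_zero, mul_one]

end Pool.Agent.MT100D.H64
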