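import Pool.Agent.MT100D.Stmts
import Pool.Agent.Helper29_MTG.Elg
import Pool.Agent.Helper47_MT100G.Fps
import Pool.Agent.Helper78_MT.Poly

/-!
# MT100-D, module ELAD: elimination of the unknown rational structure, windows and density
(port of the module of helper69 to families with rational exponents at infinity)
-/

set_option autoImplicit false

namespace Pool.Agent.MT100D.H64

open Matrix Filter Topology Pool.Agent.MT100 Pool.Agent.MT100G Pool.Agent.Helper26_MT100
open Pool.Agent.MT100G.H29 Pool.Agent.Helper78_MT Pool.Agent.MT100A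

variable {d : Type} [Fintype d] [DecidableEq d]

/-! ### Values -/

lemma ed_mul_neg (δ : d → ℚ) (l : ℂ) : ed δ l * ed δ (-l) = 1 := by
  unfold ed
  rw [Matrix.diagonal_mul_diagonal, ← Matrix.diagonal_one]
  congr 1
  funext i
  rw [← Complex.exp_add]
  have h : (δ i : ℂ) * l + (δ i : ℂ) * -l = 0 := by ring
  rw [h, Complex.exp_zero]

/-- the matrix `w ^ (N + δ)` is invertible -/
lemma r_inv (F : Family d) (w : ℂ) : ∃ R' : Matrix d d ℂ, F.R w * R' = 1 ∧ R' * F.R w = 1 := by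
  have h1 : eN F.N (Complex.log w) * eN F.N (-Complex.log w) = 1 :=
    MT100.H27.eN_mul_neg F.sys.nil _
  have h2 := ed_mul_neg F.δ (Complex.log w)
  have h3 : F.R w * (eN F.N (-Complex.log w) * ed F.δ (-Complex.log w)) = 1 := by
    unfold Family.R
    calc ed F.δ (Complex.log w) * eN F.N (Complex.log w) *
          (eN F.N (-Complex.log w) * ed F.δ (-Complex.log w)) =
          ed F.δ (Complex.log w) * (eN F.N (Complex.log w) * eN F.N (-Complex.log w)) *
          ed F.δ (-Complex.log w) := by simp only [Matrix.mul_assoc]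
      _ = 1 := by rw [h1, Matrix.mul_one, h2]
  exact ⟨_, h3, mul_eq_one_comm.1 h3⟩

lemma y_value (hvag : VagDStmt) (F : Family d) (κ : ℕ) : ∃ n3 : ℕ, ∀ n ≥ n3,
    F.Y ((n : ℂ) - κ) * F.R n = F.tv κ n := by
  have hv' := (tendsto_natCast_atTop_atTop (R := ℝ)).eventually (hvag d F κ)
  obtain ⟨n3, hn3⟩ := eventually_atTop.mp hv'
  refine ⟨n3, fun n hn => ?_⟩
  have h1 := hn3 n hn
  rw [Complex.ofReal_natCast] at h1
  exact h1

/-- the relations of NMAD for families of rows -/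
lemma num_rowsD {F : Family d} {D : ℕ} (hnum : ∀ (ι : Type) [Fintype ι] [DecidableEq ι]
      (κ : ι → ℕ), Sep D κ → ∀ k : ℕ,
      ∃ n0 : ℕ, ∀ n : ℕ, n0 ≤ n → ∀ c : (ι × Fin k → d) → (ι × Fin k → d) → ℚ,
        ∑ β, ∑ α, (c β α : ℂ) * ∏ s, F.tv (κ s.1) n (β s) (α s) = 0 →
        ∀ g : ι → Matrix d d ℂ, (∀ i, g i ∈ F.Zc) →
          ∑ β, ∑ α, (c β α : ℂ) *
            ∏ s, (F.Y ((n : ℂ) - κ s.1) * g s.1 * F.R n) (β s) (α s) = 0)
    (k n' : ℕ) (κ : Fin n' → ℕ)
    (hκ : Sep D κ) : ∃ n0 : ℕ, ∀ n ≥ n0, ∀ (a : Fin n' → Fin k → d)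
      (c : (Fin n' → Fin k → d) → ℚ),
      ∑ β, algebraMap ℚ ℂ (c β) * ∏ i, ∏ j, F.tv (κ i) n (a i j) (β i j) = 0 →
      ∀ g : Fin n' → Matrix d d ℂ, (∀ i, g i ∈ F.Zc) →
        ∑ β, algebraMap ℚ ℂ (c β) *
          ∏ i, ∏ j, (F.Y ((n : ℂ) - κ i) * g i * F.R n) (a i j) (β i j) = 0 := by
  classical
  obtain ⟨n0, hn0⟩ := hnum (Fin n') κ hκ k
  refine ⟨n0, fun n hn a c hc g hg => ?_⟩
  set a' : Fin n' × Fin k → d := fun s => a s.1 s.2 with ha'
  have key : ∀ G : Fin n' → Matrix d d ℂ,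
      ∑ β, ∑ α : Fin n' × Fin k → d, (((if β = a' then c (fun i j => α (i, j)) else 0 : ℚ)) : ℂ) *
        ∏ s : Fin n' × Fin k, G s.1 (β s) (α s) =
      ∑ β, algebraMap ℚ ℂ (c β) * ∏ i, ∏ j, G i (a i j) (β i j) := by
    intro G
    rw [Finset.sum_eq_single a']
    · rw [← (Equiv.curry (Fin n') (Fin k) d).sum_comp]
      refine Finset.sum_congr rfl fun α _ => ?_
      rw [if_pos rfl, Fintype.prod_prod_type, eq_ratCast (algebraMap ℚ ℂ)]
      rfl
    · intro β _ hβ
      refine Finset.sum_eq_zero fun α _ => ?_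
      rw [if_neg hβ]
      simp
    · intro h
      exact absurd (Finset.mem_univ _) h
  have h1 := hn0 n hn (fun β α => if β = a' then c (fun i j => α (i, j)) else 0) (by
    rw [key (fun i => F.tv (κ i) n)]
    exact hc) g hg
  rw [key (fun i => F.Y ((n : ℂ) - κ i) * g i * F.R n)] at h1
  exact h1

lemma sep_mono {ι : Type} {D D' : ℕ} (h : D ≤ D') {κ : ι → ℕ} (hκ : Sep D' κ) : Sep D κ := by
  refine ⟨fun i => h.trans (hκ.1 i), fun i j hij => ?_⟩
  rcases hκ.2 i j hij with h1 | h1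
  · exact Or.inl (h.trans h1)
  · exact Or.inr (h.trans h1)

/-- two different numbers in the same class modulo `D` are at distance at least `D` -/
lemma dist_of_mod {D a b : ℕ} (hab : a ≠ b) (h : a % D = b % D) : D ≤ a - b ∨ D ≤ b - a := by
  rcases lt_or_gt_of_ne hab with h1 | h1
  · right
    have h2 : D ∣ b - a := (Nat.modEq_iff_dvd' h1.le).1 h
    exact Nat.le_of_dvd (by omega) h2
  · left
    have h2 : D ∣ a - b := (Nat.modEq_iff_dvd' h1.le).1 h.symm
    exact Nat.le_of_dvd (by omega) h2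

/-- ELAD -/
theorem ela (hnma : NmaDStmt) (hvag : VagDStmt) (hbas : BasDStmt) (hmoa : MoaDStmt) :
    ElaDStmt := by
  classical
  intro d _ _ F k A
  obtain ⟨D1, hD1⟩ := hnma d F
  obtain ⟨D0, hD0⟩ : ∃ D0, D0 = D1 + 1 := ⟨_, rfl⟩
  have hD0pos : 0 < D0 := by omega
  obtain ⟨D, hD⟩ : ∃ D, D = (Fintype.card d ^ k) ^ 2 := ⟨_, rfl⟩
  have hcard : Fintype.card (Fin k → d) ^ 2 = D := by
    rw [hD, Fintype.card_fun, Fintype.card_fin]
  have honeZ : (1 : Matrix d d ℂ) ∈ F.Zc := by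
    obtain ⟨R, hR⟩ := hbas d F
    have h := hmoa d F.q F.B R F.Y hR Set.univ
    exact subset_zcl h.1 h.2.1
  have hN : ∀ K n' : ℕ, ∀ κ : Fin n' → Fin (K + D0), ∃ n0 : ℕ,
      Sep D0 (fun i => (κ i : ℕ)) → ∀ n ≥ n0,
      ∀ (a : Fin n' → Fin k → d) (c : (Fin n' → Fin k → d) → ℚ),
      ∑ β, algebraMap ℚ ℂ (c β) * ∏ i, ∏ j, F.tv (κ i) n (a i j) (β i j) = 0 →
      ∀ g : Fin n' → Matrix d d ℂ, (∀ i, g i ∈ F.Zc) →
        ∑ β, algebraMap ℚ ℂ (c β) *
          ∏ i, ∏ j, (F.Y ((n : ℂ) - (κ i : ℕ)) * g i * F.R n) (a i j) (β i j) = 0 := by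
    intro K n' κ
    by_cases hκ : Sep D0 (fun i => (κ i : ℕ))
    · obtain ⟨n0, hn0⟩ := num_rowsD hD1 k n' (fun i => (κ i : ℕ)) (sep_mono (by omega) hκ)
      exact ⟨n0, fun _ => hn0⟩
    · exact ⟨0, fun h => absurd h hκ⟩
  choose n0 hn0 using hN
  choose n3 hn3 using y_value hvag F
  set n1 : ℕ → ℕ := fun K => max K (max
    ((Finset.range (D + 2)).sup fun n' => Finset.univ.sup (n0 K n'))
    ((Finset.range (K + D0)).sup n3)) with hn1
  refine ⟨D0 * D, n1, fun P _ S hS => ?_⟩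
  have hw : ∀ K : ℕ, ∀ n ≥ n1 K, (S ∩ Set.Ioc (n - K) n).ncard ≤ D0 * D := by
    intro K n hn
    have hKn : K ≤ n := le_trans (le_max_left _ _) hn
    have hna : ((Finset.range (D + 2)).sup fun n' => Finset.univ.sup (n0 K n')) ≤ n + D0 :=
      le_trans (le_trans (le_trans (le_max_left _ _) (le_max_right _ _)) hn) (Nat.le_add_right _ _)
    have hnb : (Finset.range (K + D0)).sup n3 ≤ n + D0 :=
      le_trans (le_trans (le_trans (le_max_right _ _) (le_max_right _ _)) hn)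
        (Nat.le_add_right _ _)
    by_contra hcon
    push Not at hcon
    have hfin : (S ∩ Set.Ioc (n - K) n).Finite :=
      (Set.finite_Ioc _ _).subset Set.inter_subset_right
    -- a class modulo `D0` with more than `D` elements
    obtain ⟨r, -, hr⟩ := Finset.exists_lt_card_fiber_of_mul_lt_card_of_maps_to
      (s := hfin.toFinset) (t := Finset.range D0) (f := fun m => m % D0) (n := D)
      (fun m _ => Finset.mem_range.2 (Nat.mod_lt _ hD0pos)) (by
        rw [Finset.card_range, ← Set.ncard_eq_toFinset_card _ hfin]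
        exact hcon)
    obtain ⟨T, hTsub, hTcard⟩ := Finset.exists_subset_card_eq (Nat.succ_le_of_lt hr)
    have e : T ≃ Fin (D + 1) := T.equivFinOfCardEq hTcard
    have hmem' : ∀ i, ((e.symm i : T) : ℕ) ∈
        Finset.filter (fun m => m % D0 = r) hfin.toFinset := fun i => hTsub (e.symm i).2
    have hmem : ∀ i, ((e.symm i : T) : ℕ) ∈ S ∩ Set.Ioc (n - K) n := fun i =>
      hfin.mem_toFinset.1 (Finset.mem_filter.1 (hmem' i)).1
    have hmod : ∀ i, ((e.symm i : T) : ℕ) % D0 = r := fun i => (Finset.mem_filter.1 (hmem' i)).2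
    set κ : Fin (D + 1) → Fin (K + D0) := fun i =>
      ⟨n + D0 - ((e.symm i : T) : ℕ), by
        have h1 := (hmem i).2.1
        have h2 := (hmem i).2.2
        omega⟩ with hκdef
    have hκval : ∀ i, (κ i : ℕ) = n + D0 - ((e.symm i : T) : ℕ) := fun i => rfl
    have hκle : ∀ i, (κ i : ℕ) ≤ n + D0 := fun i => by
      rw [hκval]
      omega
    have hsep : Sep D0 (fun i => (κ i : ℕ)) := by
      refine ⟨fun i => ?_, fun i j hij => ?_⟩
      · have h2 := (hmem i).2.2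
        show D0 ≤ (κ i : ℕ)
        rw [hκval]
        omega
      · have h1 : ((e.symm i : T) : ℕ) ≠ ((e.symm j : T) : ℕ) := fun h =>
          hij (e.symm.injective (Subtype.ext h))
        have h2 := (hmem i).2.2
        have h3 := (hmem j).2.2
        show D0 ≤ (κ i : ℕ) - (κ j : ℕ) ∨ D0 ≤ (κ j : ℕ) - (κ i : ℕ)
        rw [hκval, hκval]
        rcases dist_of_mod h1 ((hmod i).trans (hmod j).symm) with h4 | h4
        · right; omega
        · left; omega
    have hκS : ∀ i, n + D0 - (κ i : ℕ) ∈ S := by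
      intro i
      have h2 := (hmem i).2.2
      have h3 : n + D0 - (κ i : ℕ) = ((e.symm i : T) : ℕ) := by
        rw [hκval]
        omega
      rw [h3]
      exact (hmem i).1
    choose t ht ht2 using fun i => hS (n + D0 - (κ i : ℕ)) (hκS i)
    obtain ⟨E, hRE, hER⟩ := r_inv F ((n + D0 : ℕ) : ℂ)
    have hcast : ∀ i, ((n + D0 - (κ i : ℕ) : ℕ) : ℂ) = ((n + D0 : ℕ) : ℂ) - (κ i : ℕ) := by
      intro i
      rw [Nat.cast_sub (hκle i)]
    have hY : ∀ i, F.Y (((n + D0 : ℕ) : ℂ) - (κ i : ℕ)) * F.R ((n + D0 : ℕ) : ℂ) =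
        F.tv (κ i) ((n + D0 : ℕ) : ℝ) := by
      intro i
      apply hn3 (κ i) (n + D0)
      exact le_trans (Finset.le_sup (f := n3) (Finset.mem_range.2 (κ i).2)) hnb
    have hY' : ∀ i, F.Y ((n + D0 - (κ i : ℕ) : ℕ) : ℂ) =
        F.tv (κ i) ((n + D0 : ℕ) : ℝ) * E := by
      intro i
      rw [hcast i, ← hY i, Matrix.mul_assoc, hRE, Matrix.mul_one]
    obtain ⟨i, hi⟩ := greedy_group (k := ℚ) (K := ℂ) (ι := Fin k → d) (α := Fin k → d)
      (G := Matrix d d ℂ) (J := D + 1) (by rw [hcard]; exact Nat.lt_succ_self D) t A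
      (fun i a γ => ∏ j, F.tv (κ i) ((n + D0 : ℕ) : ℝ) (a j) (γ j)) F.Zc 1 honeZ
      (fun i g a γ => ∏ j, (F.Y (((n + D0 : ℕ) : ℂ) - (κ i : ℕ)) * g *
        F.R ((n + D0 : ℕ) : ℂ)) (a j) (γ j))
      (fun i a => by
        funext γ
        rw [Matrix.mul_one, hY i])
      (fun β γ => ∏ j, (E * Pᵀ) (γ j) (β j))
      (by
        intro n' hn' a c hc g hg
        have h1 : n0 K n' (fun i => κ (Fin.castLE hn' i)) ≤ n + D0 := by
          refine le_trans ?_ hna
          refine le_trans (Finset.le_sup (f := n0 K n') (Finset.mem_univ _)) ?_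
          exact Finset.le_sup (f := fun n' => Finset.univ.sup (n0 K n'))
            (Finset.mem_range.2 (by omega))
        have hsep' : Sep D0 (fun i => ((κ (Fin.castLE hn' i) : Fin (K + D0)) : ℕ)) :=
          ⟨fun i => hsep.1 _, fun i j hij => hsep.2 _ _ fun h =>
            hij (Fin.castLE_injective hn' h)⟩
        exact hn0 K n' (fun i => κ (Fin.castLE hn' i)) hsep' (n + D0) h1 a c hc g hg)
      (by
        intro i a ha
        have h1 := ht i a ha
        unfold Family.per at h1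
        rw [hY' i] at h1
        rw [sum_prod (t i) P (F.tv (κ i) ((n + D0 : ℕ) : ℝ)) E a] at h1
        exact h1)
    obtain ⟨g, hg, a, ha, hne⟩ := ht2 i
    apply hne
    have h1 := hi g hg a ha
    rw [← sum_prod (t i) P (F.Y (((n + D0 : ℕ) : ℂ) - (κ i : ℕ)) * g *
      F.R ((n + D0 : ℕ) : ℂ)) E a] at h1
    have h2 : F.Y (((n + D0 : ℕ) : ℂ) - (κ i : ℕ)) * g * F.R ((n + D0 : ℕ) : ℂ) * E =
        F.Y ((n + D0 - (κ i : ℕ) : ℕ) : ℂ) * g := by
      rw [hcast i, Matrix.mul_assoc, hRE, Matrix.mul_one]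
    rw [h2] at h1
    exact h1
  refine ⟨?_, ?_⟩
  · intro K n hn
    refine le_trans (le_of_eq ?_) (hw K n hn)
    have hK : K ≤ n := le_trans (le_max_left _ _) hn
    have h3 : (S ∩ Set.Ioc (n - K) n) = {l : ℕ | l ∈ S ∧ n < l + K ∧ l ≤ n} := by
      ext l
      simp only [Set.mem_inter_iff, Set.mem_ofPred_eq, Set.mem_Ioc]
      constructor
      · rintro ⟨h4, h5, h6⟩
        exact ⟨h4, by omega, h6⟩
      · rintro ⟨h4, h5, h6⟩
        exact ⟨h4, by omega, h6⟩
    rw [h3]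
    rfl
  · apply densZero_of
    exact density_of_windows _ _ fun K => ⟨n1 K, fun n hn => hw K n hn⟩

end Pool.Agent.MT100D.H64
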